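import Pool.Agent.Helper54.PW.Defs

/-! # PW-F: duality for elementary abelian groups -/

set_option autoImplicit false
open scoped Pointwise

namespace Pool.Agent.Helper54.PW

section general

variable {p : ℕ} [Fact p.Prime] {G : Type} [AddCommGroup G]

theorem lin_eq_zero [Module (ZMod p) G] (x : G) (h : ∀ φ : Module.Dual (ZMod p) G, φ x = 0) :
    x = 0 :=
  (Module.forall_dual_apply_eq_zero_iff (ZMod p) x).1 h

theorem lin_double_dual [Module (ZMod p) G] [Finite G] (g : (G →+ ZMod p) →+ ZMod p) :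
    ∃ x : G, ∀ χ, g χ = χ x := by
  have _ : Module.Finite (ZMod p) G := Module.Finite.of_finite
  let e : (G →+ ZMod p) ≃+ (G →ₗ[ZMod p] ZMod p) := AddMonoidHom.toZModLinearMapEquiv p
  let g' : (G →ₗ[ZMod p] ZMod p) →+ ZMod p := g.comp e.symm.toAddMonoidHom
  let g'' : Module.Dual (ZMod p) (Module.Dual (ZMod p) G) := g'.toZModLinearMap p
  obtain ⟨x, hx⟩ := (Module.evalEquiv (ZMod p) G).surjective g''
  refine ⟨x, fun χ => ?_⟩
  have h1 := LinearMap.congr_fun hx (e χ)
  have h2 : g'' (e χ) = g χ := by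
    change g (e.symm (e χ)) = g χ
    rw [AddEquiv.symm_apply_apply]
  rw [← h2, ← h1]
  rfl

theorem gen_exists_hom_ne_zero (h : ∀ x : G, p • x = 0) (x : G) (hx : x ≠ 0) :
    ∃ χ : G →+ ZMod p, χ x ≠ 0 := by
  let _ : Module (ZMod p) G := AddCommGroup.zmodModule h
  by_contra hcon
  push Not at hcon
  exact hx (lin_eq_zero x (fun φ => hcon φ.toAddMonoidHom))

theorem gen_double_dual [Finite G] (h : ∀ x : G, p • x = 0) (g : (G →+ ZMod p) →+ ZMod p) :
    ∃ x : G, ∀ χ, g χ = χ x := by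
  let _ : Module (ZMod p) G := AddCommGroup.zmodModule h
  exact lin_double_dual g

end general

section duality
variable {p : ℕ} [Fact p.Prime] {W : Type} [Group W] [Finite W] (hc : ∀ a b : W, a * b = b * a)
  (hp : ∀ a : W, a ^ p = 1)
include hc hp

theorem exists_dual_ne_zero (w : W) (hw : w ≠ 1) : ∃ χ : Dl p W, χ (Additive.ofMul w) ≠ 0 := by
  let _ : CommGroup W := { ‹Group W› with mul_comm := hc }
  exact gen_exists_hom_ne_zero (G := Additive W) (fun x => hp x) (Additive.ofMul w) hw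

theorem ev_injective (E : Type) [Field E] [CharP E p] : Function.Injective (ev p E (W := W)) := by
  intro w w' hww
  by_contra hne
  obtain ⟨χ, hχ⟩ := exists_dual_ne_zero hc hp (w * w'⁻¹) (fun h => hne (mul_inv_eq_one.1 h))
  apply hχ
  have h1 := DFunLike.congr_fun hww χ
  have h2 : ZMod.castHom (dvd_refl p) E (χ (Additive.ofMul w)) =
      ZMod.castHom (dvd_refl p) E (χ (Additive.ofMul w')) := h1
  have h3 := (ZMod.castHom (dvd_refl p) E).injective h2
  have h4 : χ (Additive.ofMul (w * w'⁻¹)) + χ (Additive.ofMul w') = χ (Additive.ofMul w) := by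
    rw [← map_add, ← ofMul_mul]
    simp
  rw [h3] at h4
  exact left_eq_add.1 (by rw [add_comm]; exact h4.symm)

theorem exists_ev_of_fixed (E : Type) [Field E] [CharP E p] (f : TT p W E)
    (hf : ∀ χ, f χ ^ p = f χ) : ∃ w : W, f = ev p E w := by
  let _ : CommGroup W := { ‹Group W› with mul_comm := hc }
  have hinj : Function.Injective (ZMod.castHom (dvd_refl p) E) :=
    (ZMod.castHom (dvd_refl p) E).injective
  have h1 : ∀ χ, ∃ a : ZMod p, ZMod.castHom (dvd_refl p) E a = f χ := by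
    intro χ
    have h2 : f χ ∈ (⊥ : Subfield E) := (Subfield.mem_bot_iff_pow_eq_self E p).2 (hf χ)
    have h3 : (⊥ : Subfield E) ≤ (ZMod.castHom (dvd_refl p) E).fieldRange := bot_le
    exact RingHom.mem_fieldRange.1 (h3 h2)
  choose g0 hg0 using h1
  let g : Dl p W →+ ZMod p :=
    { toFun := g0
      map_zero' := by
        apply hinj
        rw [hg0, map_zero, map_zero]
      map_add' := by
        intro a b
        apply hinj
        rw [hg0, map_add, map_add, hg0, hg0] }
  obtain ⟨x, hx⟩ := gen_double_dual (G := Additive W) (fun x => hp x) g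
  refine ⟨Additive.toMul x, ?_⟩
  ext χ
  rw [← hg0 χ]
  change _ = ZMod.castHom (dvd_refl p) E (χ x)
  rw [← hx χ]
  rfl

theorem exists_lift_wp (E : Type) [Field E] [CharP E p] (S : AddSubgroup E)
    (hS : ∀ x ∈ S, ∃ y ∈ S, wp p E y = x) (a : TT p W E) (ha : ∀ χ, a χ ∈ S) :
    ∃ w : TT p W E, (∀ χ, w χ ∈ S) ∧ ∀ χ, wp p E (w χ) = a χ := by
  let _ : Algebra (ZMod p) E := ZMod.algebra E p
  let S' : Submodule (ZMod p) E := AddSubgroup.toZModSubmodule p S
  let φ : E →ₗ[ZMod p] E := (wp p E).toZModLinearMap p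
  let T : Submodule (ZMod p) E := S' ⊓ S'.comap φ
  let ψ : T →ₗ[ZMod p] S' := (φ.comp T.subtype).codRestrict S' (fun x => x.2.2)
  have hψ : Function.Surjective ψ := by
    intro x
    obtain ⟨y, hy, hyx⟩ := hS x.1 x.2
    refine ⟨⟨y, hy, ?_⟩, Subtype.ext hyx⟩
    change wp p E y ∈ S
    rw [hyx]; exact x.2
  obtain ⟨σ, hσ⟩ := LinearMap.exists_rightInverse_of_surjective ψ (LinearMap.range_eq_top.2 hψ)
  let a' : Dl p W →+ S' := a.codRestrict S'.toAddSubmonoid (fun χ => ha χ)
  refine ⟨(T.subtype.toAddMonoidHom.comp σ.toAddMonoidHom).comp a', ?_, ?_⟩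
  · intro χ
    exact (σ (a' χ)).2.1
  · intro χ
    have h1 := LinearMap.congr_fun hσ (a' χ)
    exact congrArg Subtype.val h1

end duality

end Pool.Agent.Helper54.PW
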